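import Pool.Agent.Lib.FacC.Main4

/-!
MP_c83bfd_ag: factorial cancellation implies algebraic solutions for systems with regular or arbitrary
singularities only at the four fourth roots of unity (infinity is not a singular point), with N a power
of 2 (four points, local monodromies of order dividing 4 possible).
-/

open Polynomial

namespace Pool.Agent.Results.MP_c83bfd_ag.FourthRoots

theorem result (R : Subring ℂ) [Module.Finite ℤ R] (n k : ℕ)
    (B : Matrix (Fin n) (Fin n) R[X]) (hB : ∀ i j, (B i j).natDegree + 2 ≤ 4 * k)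
    (A : ℂ → Matrix (Fin n) (Fin n) ℂ)
    (hA : ∀ z : ℂ, z ^ 4 ≠ 1 →
      (z ^ 4 - 1) ^ k • A z = (B.map (Polynomial.map R.subtype)).map (eval z))
    (N : R) (S : Finset ℕ) (hSp : ∀ p ∈ S, p.Prime)
    (hS : ∏ p ∈ S, (p : ℝ) ^ (1 / ((p : ℝ) - 1)) ≤ 2.17)
    (hN : ∀ p : ℕ, p.Prime → p ∉ S → IsCoprime N (p : R))
    (hfac : ∀ m : ℕ, 1 ≤ m → ∃ Q : Matrix (Fin n) (Fin n) R[X], ∀ z : ℂ, z ^ 4 ≠ 1 →
      ((N : ℂ) * (z ^ 4 - 1) ^ k) ^ m • FacC.Aseq A m z =
        ((m.factorial : ℕ) : ℂ) • (Q.map (Polynomial.map R.subtype)).map (eval z)) :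
    FacC.AllAlg ((X ^ 4 - 1) ^ k : ℂ[X]) (B.map (Polynomial.map R.subtype)) := by
  have hE : FacC.toC ((X ^ 4 - 1 : ℤ[X]) ^ k) = ((X ^ 4 - 1) ^ k : ℂ[X]) := by
    unfold FacC.toC
    simp
  have hev : ∀ z : ℂ, ((X ^ 4 - 1) ^ k : ℂ[X]).eval z = (z ^ 4 - 1) ^ k := by
    intro z
    simp
  rcases Nat.eq_zero_or_pos n with rfl | hn
  · intro U _ _ y _ i
    exact i.elim0
  have hk : 1 ≤ k := by
    have := hB ⟨0, hn⟩ ⟨0, hn⟩
    omega
  have hne : ∀ z : ℂ, (z ^ 4 - 1) ^ k ≠ 0 → z ^ 4 ≠ 1 := by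
    intro z hz h
    apply hz
    rw [h, sub_self]
    exact zero_pow (by omega)
  have hκ : Real.exp (∑ p ∈ S, Real.log p / ((p : ℝ) - 1)) ≤ 2.17 := by
    rw [Real.exp_sum]
    refine le_trans (le_of_eq ?_) hS
    refine Finset.prod_congr rfl fun p hp => ?_
    have h2 : (0 : ℝ) < p := by exact_mod_cast (hSp p hp).pos
    rw [Real.rpow_def_of_pos h2]
    congr 1
    ring
  have h := FacC.main4N R n k B hB A (by
      intro z hz
      rw [hE, hev] at hz ⊢
      exact hA z (hne z hz)) N S hSp hκ hN (by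
      intro m hm
      obtain ⟨Q, hQ⟩ := hfac m hm
      refine ⟨Q, fun z hz => ?_⟩
      rw [hE, hev] at hz ⊢
      exact hQ z (hne z hz))
  rwa [hE] at h

end Pool.Agent.Results.MP_c83bfd_ag.FourthRoots
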