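import Pool.Agent.Lib.FacC.Main
import Pool.Agent.Lib.FacC.Pull1
import Pool.Agent.Lib.FacC.Phi0
import Pool.Agent.Lib.FacC.PS7

/-!
# MP_c83bfd_ag: fifth roots of unity, vanishing `p`-curvature for `p ≥ 7`

`R` is a subring of `ℂ`, finite over `ℤ`; `A = B / Δ` with `B` any matrix over `R[z]` and
`Δ` a divisor of `(z^5 - 1)^k` in `R[z]`.  If the `p`-curvature vanishes for all primes `p ≥ 7` and
the factorial cancellation holds at the two primes `2`, `3` (up to a constant), then all local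
holomorphic solutions are algebraic.  Nothing is assumed at the prime `5`.
-/

open Polynomial

namespace Pool.Agent.Results.MP_c83bfd_ag.PCurvature

open FacC

/-- The complex matrix `M(z)` for a matrix `M` of polynomials over `R`. -/
noncomputable def val {R : Subring ℂ} {n : ℕ} (M : Matrix (Fin n) (Fin n) R[X]) (z : ℂ) :
    Matrix (Fin n) (Fin n) ℂ :=
  M.map (fun P => P.eval₂ R.subtype z)

private lemma val_eq {R : Subring ℂ} {n : ℕ} (M : Matrix (Fin n) (Fin n) R[X]) (z : ℂ) :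
    val M z = (M.map (Polynomial.map R.subtype)).map (eval z) := by
  ext1 i j
  show (M i j).eval₂ R.subtype z = ((M i j).map R.subtype).eval z
  rw [eval_map]

private lemma toC_pow (e k : ℕ) (z : ℂ) :
    (toC ((X ^ e - 1) ^ k : ℤ[X])).eval z = (z ^ e - 1) ^ k := by
  unfold toC
  simp

private lemma val_mul {R : Subring ℂ} {n : ℕ} (Q : Matrix (Fin n) (Fin n) R[X]) (C0 : R[X])
    (m : ℕ) (z : ℂ) :
    val (Q.map (fun P => C0 ^ m * P)) z = (C0.eval₂ R.subtype z) ^ m • val Q z := by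
  ext1 a b
  show (C0 ^ m * Q a b).eval₂ R.subtype z = (C0.eval₂ R.subtype z) ^ m * (Q a b).eval₂ R.subtype z
  rw [eval₂_mul, eval₂_pow]

private lemma log5 : Real.log 5 ≤ 137 / 59 * Real.log 2 := by
  have h2 : Real.log ((5 : ℝ) ^ 59) ≤ Real.log ((2 : ℝ) ^ 137) := by
    apply Real.log_le_log (by positivity)
    norm_num
  rw [Real.log_pow, Real.log_pow] at h2
  push_cast at h2
  linarith

private lemma cost (F : Finset ℕ) (hF : ∀ p ∈ F, p.Prime) :
    ∑ p ∈ F, wt {5} {p | 7 ≤ p} p * Real.log p ≤ Real.log 5 / 4 + 0.152 := by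
  classical
  have h1 : ∑ p ∈ F, wt {5} {p | 7 ≤ p} p * Real.log p ≤
      ∑ p ∈ F, ((if p = 5 then Real.log 5 / 4 else 0) +
        (if 7 ≤ p then Real.log p / ((p : ℝ) * ((p : ℝ) - 1)) else 0)) := by
    refine Finset.sum_le_sum fun p hp => ?_
    unfold wt
    rw [if_neg (not_not.mpr (hF p hp))]
    by_cases h5 : p = 5
    · subst h5
      rw [if_pos (Set.mem_singleton 5), if_pos rfl, if_neg (by norm_num)]
      norm_num
      linarith
    · rw [if_neg (by simpa using h5), if_neg h5, zero_add]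
      by_cases h7 : 7 ≤ p
      · rw [if_pos (by simpa using h7), if_pos h7, one_div, inv_mul_eq_div]
      · rw [if_neg (by simpa using h7), if_neg h7, zero_mul]
  refine h1.trans ?_
  rw [Finset.sum_add_distrib]
  refine add_le_add ?_ ?_
  · rw [Finset.sum_ite_eq']
    split_ifs
    · exact le_rfl
    · have : 0 ≤ Real.log 5 := Real.log_nonneg (by norm_num)
      positivity
  · rw [← Finset.sum_filter]
    refine le_trans ?_ (ps7 (F.sup id + 1))
    refine Finset.sum_le_sum_of_subset_of_nonneg ?_ ?_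
    · intro p hp
      rw [Finset.mem_filter] at hp ⊢
      refine ⟨?_, hF p hp.1, hp.2⟩
      rw [Finset.mem_range]
      exact Nat.lt_succ_of_le (Finset.le_sup (f := id) hp.1)
    · intro p hp _
      rw [Finset.mem_filter] at hp
      have h7 : (7 : ℝ) ≤ p := by exact_mod_cast hp.2.2
      exact div_nonneg (Real.log_nonneg (by linarith)) (mul_nonneg (by linarith) (by linarith))

/-- `A_m = Aseq A m` is `A_0 = 1`, `A_(m+1) = A_m' + A_m A`. -/
theorem result (R : Subring ℂ) [Module.Finite ℤ R] (n k : ℕ)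
    (D : R[X]) (hD : D ∣ (X ^ 5 - 1) ^ k)
    (B : Matrix (Fin n) (Fin n) R[X]) (A : ℂ → Matrix (Fin n) (Fin n) ℂ)
    (hA : ∀ z : ℂ, D.eval₂ R.subtype z ≠ 0 → D.eval₂ R.subtype z • A z = val B z)
    (hcurv : ∀ p : ℕ, p.Prime → 7 ≤ p → ∃ Q : Matrix (Fin n) (Fin n) R[X],
      ∀ z : ℂ, D.eval₂ R.subtype z ≠ 0 →
        (D.eval₂ R.subtype z) ^ p • Aseq A p z = (p : ℂ) • val Q z)
    (c : ℕ) (hc : c ≠ 0)
    (h23 : ∀ p ∈ ({2, 3} : Finset ℕ), ∀ m : ℕ, 1 ≤ m → ∃ Q : Matrix (Fin n) (Fin n) R[X],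
      ∀ z : ℂ, D.eval₂ R.subtype z ≠ 0 →
        ((c : ℂ) * (D.eval₂ R.subtype z) ^ m) • Aseq A m z =
          ((p ^ padicValNat p m.factorial : ℕ) : ℂ) • val Q z)
    (U : Set ℂ) (hU : IsOpen U) (hUc : IsPreconnected U)
    (hUD : ∀ z ∈ U, D.eval₂ R.subtype z ≠ 0)
    (y : ℂ → Fin n → ℂ) (hy : ∀ i, DifferentiableOn ℂ (fun z => y z i) U)
    (hsol : ∀ z ∈ U, ∀ i, deriv (fun x => y x i) z = ∑ j, A z i j * y z j) (i : Fin n) :
    ∃ P : ℂ[X][X], P ≠ 0 ∧ ∀ z ∈ U, (P.map (evalRingHom z)).eval (y z i) = 0 := by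
  classical
  obtain ⟨C0, hC0⟩ := hD
  set E : ℤ[X] := (X ^ 5 - 1) ^ k with hE
  have hEv : ∀ z : ℂ, (toC E).eval z = (z ^ 5 - 1) ^ k := fun z => toC_pow 5 k z
  have hsplit : ∀ z : ℂ, (toC E).eval z = D.eval₂ R.subtype z * C0.eval₂ R.subtype z := by
    intro z
    rw [hEv, ← eval₂_mul, ← hC0, eval₂_pow, eval₂_sub, eval₂_pow, eval₂_X, eval₂_one]
  have hE0 : E.eval 0 ≠ 0 := by
    rw [hE]
    simp
  have hEabs : |((E.eval 0 : ℤ) : ℝ)| = 1 := by
    rw [hE]
    simp [abs_pow]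
  obtain ⟨φ, hφd, hφ0, hφ1, hφ'⟩ := phi0_exists 5 (by norm_num)
  have hpull : PullOK E ⊤ φ (fun _ => 1) := by
    refine pull1 E φ hφd fun w hw => ?_
    rw [hEv]
    exact pow_ne_zero k (sub_ne_zero.mpr (hφ1 w hw))
  have hcost : Real.exp (Real.log 5 / 4 + 0.152) < ‖deriv φ 0‖ := by
    have h1 : Real.exp (Real.log 5 / 4 + 0.152) ^ 5 < 16 := by
      rw [← Real.exp_nat_mul]
      have h16 : (16 : ℝ) = Real.exp (4 * Real.log 2) := by
        have h17 : (4 : ℝ) * Real.log 2 = ((4 : ℕ) : ℝ) * Real.log 2 := by norm_num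
        rw [h17, Real.exp_nat_mul, Real.exp_log (by norm_num)]
        norm_num
      rw [h16, Real.exp_lt_exp]
      have h2 := log5
      have h3 := Real.log_two_gt_d9
      push_cast
      linarith
    have h3 : Real.exp (Real.log 5 / 4 + 0.152) ^ 5 < ‖deriv φ 0‖ ^ 5 := by rw [hφ']; exact h1
    exact lt_of_pow_lt_pow_left₀ 5 (norm_nonneg _) h3
  set B' : Matrix (Fin n) (Fin n) R[X] := B.map (fun P => C0 * P) with hB'
  have hB'v : ∀ z, val B' z = C0.eval₂ R.subtype z • val B z := by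
    intro z
    ext1 a b
    show (C0 * B a b).eval₂ R.subtype z = C0.eval₂ R.subtype z * (B a b).eval₂ R.subtype z
    rw [eval₂_mul]
  have main := mainG R n E hE0 B' A ?_ ⊤ (fun _ _ => le_top) φ (fun _ => 1) hφd
    (differentiableOn_const 1) hφ0 rfl hpull (Real.log 5 / 4 + 0.152) ?_ {5} {p | 7 ≤ p} cost
    c hc ?_ ?_
  · refine main U hU hUc y ⟨hy, ?_⟩ i
    intro z hz a
    rw [hsol z hz a, hsplit, Finset.mul_sum]
    refine Finset.sum_congr rfl fun b _ => ?_
    have h1 := congrFun (congrFun (hA z (hUD z hz)) a) b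
    rw [Matrix.smul_apply, smul_eq_mul] at h1
    have h2 := congrFun (congrFun (val_eq B' z) a) b
    rw [hB'v, Matrix.smul_apply, smul_eq_mul] at h2
    have h3 : (((B'.map (Polynomial.map R.subtype)) a b).eval z) =
        C0.eval₂ R.subtype z * val B z a b := h2.symm
    rw [h3, ← h1]
    ring
  · intro z hz
    rw [hsplit] at hz ⊢
    have hDz : D.eval₂ R.subtype z ≠ 0 := fun h => hz (by rw [h, zero_mul])
    rw [← val_eq, hB'v, ← hA z hDz, smul_smul, mul_comm]
  · rw [hEabs, mul_one]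
    exact hcost
  · intro p hp _ hp7
    refine ⟨?_, ?_⟩
    · have : Fact p.Prime := ⟨hp⟩
      rw [hE]
      have h1 : ((X ^ 5 - 1) ^ k : ℤ[X]).map (Int.castRingHom (ZMod p)) = (X ^ 5 - 1) ^ k := by
        simp
      rw [h1]
      refine pow_ne_zero k ?_
      have h2 := (monic_X_pow_sub_C (1 : ZMod p) (n := 5) (by norm_num)).ne_zero
      rwa [C_1] at h2
    · obtain ⟨Q, hQ⟩ := hcurv p hp hp7
      refine ⟨Q.map (fun P => C0 ^ p * P), fun z hz => ?_⟩
      rw [hsplit] at hz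
      have hDz : D.eval₂ R.subtype z ≠ 0 := fun h => hz (by rw [h, zero_mul])
      rw [hsplit, ← val_eq, val_mul, mul_pow, mul_comm, ← smul_smul, hQ z hDz, smul_smul,
        smul_smul, mul_comm]
  · intro p hp hp5 hp7 m hm
    have hp23 : p ∈ ({2, 3} : Finset ℕ) := by
      have h5 : p ≠ 5 := fun h => hp5 (by simp [h])
      have h7 : ¬ 7 ≤ p := hp7
      have h2 := hp.two_le
      interval_cases p
      · simp
      · simp
      · exact absurd hp (by norm_num)
      · exact absurd rfl h5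
      · exact absurd hp (by norm_num)
    obtain ⟨Q, hQ⟩ := h23 p hp23 m hm
    refine ⟨Q.map (fun P => C0 ^ m * P), fun z hz => ?_⟩
    rw [hsplit] at hz
    have hDz : D.eval₂ R.subtype z ≠ 0 := fun h => hz (by rw [h, zero_mul])
    rw [hsplit, ← val_eq, val_mul]
    have h2 : (c : ℂ) * (D.eval₂ R.subtype z * C0.eval₂ R.subtype z) ^ m =
        (C0.eval₂ R.subtype z) ^ m * ((c : ℂ) * (D.eval₂ R.subtype z) ^ m) := by
      ring
    rw [h2, ← smul_smul, hQ z hDz, smul_smul, smul_smul, mul_comm]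

end Pool.Agent.Results.MP_c83bfd_ag.PCurvature
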