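import Pool.Agent.Lib.FacC.Main
import Pool.Agent.Lib.FacC.Pull1
import Pool.Agent.Lib.FacC.Phi0

/-!
# MP_c83bfd_ag, Q1 for systems whose denominator divides a power of `z^e - 1`

`R` is a subring of `ℂ`, finite over `ℤ`; `A = B / Δ` with `B` any matrix over `R[z]` and
`Δ` a divisor of `(z^e - 1)^k` in `R[z]`.  Factorial cancellation with `N` implies that all local
holomorphic solutions are algebraic, if `∏_{p | N} p^(e/(p-1)) < 16`; for example `e = p`,
`N = p^a` with `p = 5, 7, 11`.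
-/

open Polynomial

namespace Pool.Agent.Results.MP_c83bfd_ag.RootsOfUnity

open FacC

/-- The complex matrix `M(z)` for a matrix `M` of polynomials over `R`. -/
noncomputable def val {R : Subring ℂ} {n : ℕ} (M : Matrix (Fin n) (Fin n) R[X]) (z : ℂ) :
    Matrix (Fin n) (Fin n) ℂ :=
  M.map (fun P => P.eval₂ R.subtype z)

private lemma val_eq {R : Subring ℂ} {n : ℕ} (M : Matrix (Fin n) (Fin n) R[X]) (z : ℂ) :
    val M z = (M.map (Polynomial.map R.subtype)).map (eval z) := by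
  ext1 i j
  show (M i j).eval₂ R.subtype z = ((M i j).map R.subtype).eval z
  rw [eval_map]

private lemma toC_pow (e k : ℕ) (z : ℂ) :
    (toC ((X ^ e - 1) ^ k : ℤ[X])).eval z = (z ^ e - 1) ^ k := by
  unfold toC
  simp

/-- `A_m = Aseq A m` is `A_0 = 1`, `A_(m+1) = A_m' + A_m A`. -/
theorem result (R : Subring ℂ) [Module.Finite ℤ R] (n e k : ℕ) (he : 1 ≤ e)
    (D : R[X]) (hD : D ∣ (X ^ e - 1) ^ k)
    (B : Matrix (Fin n) (Fin n) R[X]) (A : ℂ → Matrix (Fin n) (Fin n) ℂ)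
    (hA : ∀ z : ℂ, D.eval₂ R.subtype z ≠ 0 → D.eval₂ R.subtype z • A z = val B z)
    (N : R) (S : Finset ℕ) (hSp : ∀ p ∈ S, p.Prime)
    (hS : ∏ p ∈ S, (p : ℝ) ^ ((e : ℝ) / ((p : ℝ) - 1)) < 16)
    (hN : ∀ p : ℕ, p.Prime → p ∉ S → IsCoprime N (p : R))
    (hfac : ∀ m : ℕ, 1 ≤ m → ∃ Q : Matrix (Fin n) (Fin n) R[X],
      ∀ z : ℂ, D.eval₂ R.subtype z ≠ 0 →
        ((N : ℂ) * D.eval₂ R.subtype z) ^ m • Aseq A m z = (m.factorial : ℂ) • val Q z)
    (U : Set ℂ) (hU : IsOpen U) (hUc : IsPreconnected U)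
    (hUD : ∀ z ∈ U, D.eval₂ R.subtype z ≠ 0)
    (y : ℂ → Fin n → ℂ) (hy : ∀ i, DifferentiableOn ℂ (fun z => y z i) U)
    (hsol : ∀ z ∈ U, ∀ i, deriv (fun x => y x i) z = ∑ j, A z i j * y z j) (i : Fin n) :
    ∃ P : ℂ[X][X], P ≠ 0 ∧ ∀ z ∈ U, (P.map (evalRingHom z)).eval (y z i) = 0 := by
  classical
  obtain ⟨C0, hC0⟩ := hD
  set E : ℤ[X] := (X ^ e - 1) ^ k with hE
  have hEv : ∀ z : ℂ, (toC E).eval z = (z ^ e - 1) ^ k := fun z => toC_pow e k z
  have hsplit : ∀ z : ℂ, (toC E).eval z = D.eval₂ R.subtype z * C0.eval₂ R.subtype z := by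
    intro z
    rw [hEv, ← eval₂_mul, ← hC0, eval₂_pow, eval₂_sub, eval₂_pow, eval₂_X, eval₂_one]
  have hE0 : E.eval 0 ≠ 0 := by
    rw [hE]
    have h0 : (0 : ℤ) ^ e = 0 := zero_pow (by omega)
    simp [h0]
  have hEabs : |((E.eval 0 : ℤ) : ℝ)| = 1 := by
    rw [hE]
    have h0 : (0 : ℤ) ^ e = 0 := zero_pow (by omega)
    simp [h0, abs_pow]
  obtain ⟨φ, hφd, hφ0, hφ1, hφ'⟩ := phi0_exists e he
  have hpull : PullOK E ⊤ φ (fun _ => 1) := by
    refine pull1 E φ hφd fun w hw => ?_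
    rw [hEv]
    exact pow_ne_zero k (sub_ne_zero.mpr (hφ1 w hw))
  set κ : ℝ := ∑ p ∈ S, Real.log p / ((p : ℝ) - 1) with hκ
  have hp2 : ∀ p ∈ S, (2 : ℝ) ≤ p := fun p hp => by exact_mod_cast (hSp p hp).two_le
  have he0 : (0 : ℝ) < e := by exact_mod_cast he
  have hcost : Real.exp κ < ‖deriv φ 0‖ := by
    have h1 : Real.exp κ ^ e = ∏ p ∈ S, (p : ℝ) ^ ((e : ℝ) / ((p : ℝ) - 1)) := by
      rw [← Real.exp_nat_mul, hκ, Finset.mul_sum, Real.exp_sum]
      refine Finset.prod_congr rfl fun p hp => ?_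
      have h2 := hp2 p hp
      rw [Real.rpow_def_of_pos (by linarith)]
      congr 1
      field_simp
    have h3 : Real.exp κ ^ e < ‖deriv φ 0‖ ^ e := by rw [h1, hφ']; exact hS
    exact lt_of_pow_lt_pow_left₀ e (norm_nonneg _) h3
  set B' : Matrix (Fin n) (Fin n) R[X] := B.map (fun P => C0 * P) with hB'
  have hB'v : ∀ z, val B' z = C0.eval₂ R.subtype z • val B z := by
    intro z
    ext1 a b
    show (C0 * B a b).eval₂ R.subtype z = C0.eval₂ R.subtype z * (B a b).eval₂ R.subtype z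
    rw [eval₂_mul]
  have main := mainN R n E hE0 B' A ?_ ⊤ (fun _ _ => le_top) φ (fun _ => 1) hφd
    (differentiableOn_const 1) hφ0 rfl hpull N S hSp ?_ hN ?_
  · refine main U hU hUc y ⟨hy, ?_⟩ i
    intro z hz a
    rw [hsol z hz a, hsplit, Finset.mul_sum]
    refine Finset.sum_congr rfl fun b _ => ?_
    have h1 := congrFun (congrFun (hA z (hUD z hz)) a) b
    rw [Matrix.smul_apply, smul_eq_mul] at h1
    have h2 := congrFun (congrFun (val_eq B' z) a) b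
    rw [hB'v, Matrix.smul_apply, smul_eq_mul] at h2
    have h3 : (((B'.map (Polynomial.map R.subtype)) a b).eval z) =
        C0.eval₂ R.subtype z * val B z a b := h2.symm
    rw [h3, ← h1]
    ring
  · intro z hz
    rw [hsplit] at hz ⊢
    have hDz : D.eval₂ R.subtype z ≠ 0 := fun h => hz (by rw [h, zero_mul])
    rw [← val_eq, hB'v, ← hA z hDz, smul_smul, mul_comm]
  · rw [hEabs, mul_one]
    exact hcost
  · intro m hm
    obtain ⟨Q, hQ⟩ := hfac m hm
    refine ⟨Q.map (fun P => C0 ^ m * P), fun z hz => ?_⟩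
    rw [hsplit] at hz
    have hDz : D.eval₂ R.subtype z ≠ 0 := fun h => hz (by rw [h, zero_mul])
    rw [hsplit, ← val_eq]
    have h1 : val (Q.map (fun P => C0 ^ m * P)) z = (C0.eval₂ R.subtype z) ^ m • val Q z := by
      ext1 a b
      show (C0 ^ m * Q a b).eval₂ R.subtype z =
        (C0.eval₂ R.subtype z) ^ m * (Q a b).eval₂ R.subtype z
      rw [eval₂_mul, eval₂_pow]
    have h2 : ((N : ℂ) * (D.eval₂ R.subtype z * C0.eval₂ R.subtype z)) ^ m =
        (C0.eval₂ R.subtype z) ^ m * ((N : ℂ) * D.eval₂ R.subtype z) ^ m := by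
      ring
    rw [h1, h2, ← smul_smul, hQ z hDz, smul_smul, smul_smul, mul_comm]

end Pool.Agent.Results.MP_c83bfd_ag.RootsOfUnity
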