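import Pool.Agent.Lib.FacC.MainK
import Pool.Agent.Lib.FacC.PhiK

/-!
# MP_c83bfd_ag: singular points `0`, `∞` and the `e`-th roots of unity

`R` is a subring of `ℂ`, finite over `ℤ`; `A = B / Δ` with `B` any matrix over `R[z]` and
`Δ` a divisor of `(z (z^e - 1))^k` in `R[z]` (no condition at infinity); for `e = 1` three singular
points `0`, `1`, `∞`.  `S`, `T` are sets of primes: nothing is assumed at the primes of `S`, only the
vanishing of the `p`-curvature at the primes of `T`, and at all other primes `p` the factorial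
cancellation after multiplication with an `N` prime to `p`.  If
`e ∏_(p ∈ S) p^(1/(p-1)) ∏_(p ∈ T) p^(1/(p(p-1))) ≤ 5.63`, then all local holomorphic solutions are
algebraic.
-/

open Polynomial

namespace Pool.Agent.Results.MP_c83bfd_ag.RootsZeroInfinity

open FacC

/-- The complex matrix `M(z)` for a matrix `M` of polynomials over `R`. -/
noncomputable def val {R : Subring ℂ} {n : ℕ} (M : Matrix (Fin n) (Fin n) R[X]) (z : ℂ) :
    Matrix (Fin n) (Fin n) ℂ :=
  M.map (fun P => P.eval₂ R.subtype z)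

private lemma val_eq {R : Subring ℂ} {n : ℕ} (M : Matrix (Fin n) (Fin n) R[X]) (z : ℂ) :
    val M z = (M.map (Polynomial.map R.subtype)).map (eval z) := by
  ext1 i j
  show (M i j).eval₂ R.subtype z = ((M i j).map R.subtype).eval z
  rw [eval_map]

private lemma toC_pow (e k : ℕ) (z : ℂ) :
    (toC ((X * (X ^ e - 1)) ^ k : ℤ[X])).eval z = (z * (z ^ e - 1)) ^ k := by
  unfold toC
  simp

private lemma val_mul {R : Subring ℂ} {n : ℕ} (Q : Matrix (Fin n) (Fin n) R[X]) (C0 : R[X])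
    (m : ℕ) (z : ℂ) :
    val (Q.map (fun P => C0 ^ m * P)) z = (C0.eval₂ R.subtype z) ^ m • val Q z := by
  ext1 a b
  show (C0 ^ m * Q a b).eval₂ R.subtype z = (C0.eval₂ R.subtype z) ^ m * (Q a b).eval₂ R.subtype z
  rw [eval₂_mul, eval₂_pow]

private lemma sum_le_log (F : Finset ℕ) (hF : ∀ p ∈ F, p.Prime) (w : ℕ → ℝ) (c : ℝ)
    (h : ∏ p ∈ F, (p : ℝ) ^ (w p) ≤ c) : ∑ p ∈ F, w p * Real.log p ≤ Real.log c := by
  rw [← Real.log_exp (∑ p ∈ F, w p * Real.log p)]
  refine Real.log_le_log (Real.exp_pos _) (le_trans (le_of_eq ?_) h)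
  rw [Real.exp_sum]
  refine Finset.prod_congr rfl fun p hp => ?_
  have h2 : (0 : ℝ) < p := by exact_mod_cast (hF p hp).pos
  rw [Real.rpow_def_of_pos h2, mul_comm]

/-- `A_m = Aseq A m` is `A_0 = 1`, `A_(m+1) = A_m' + A_m A`; the cost `wt S T p` of a prime `p` is
`1/(p-1)` for `p` in `S`, `1/(p(p-1))` for `p` in `T`, not in `S`, and `0` otherwise. -/
theorem result (R : Subring ℂ) [Module.Finite ℤ R] (n e k : ℕ) (he : 1 ≤ e)
    (D : R[X]) (hD : D ∣ (X * (X ^ e - 1)) ^ k)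
    (B : Matrix (Fin n) (Fin n) R[X]) (A : ℂ → Matrix (Fin n) (Fin n) ℂ)
    (hA : ∀ z : ℂ, D.eval₂ R.subtype z ≠ 0 → D.eval₂ R.subtype z • A z = val B z)
    (S T : Set ℕ)
    (hcost : ∀ F : Finset ℕ, (∀ p ∈ F, p.Prime) →
      (e : ℝ) * ∏ p ∈ F, (p : ℝ) ^ (wt S T p) ≤ 5.63)
    (hcurv : ∀ p : ℕ, p.Prime → p ∉ S → p ∈ T → ∃ Q : Matrix (Fin n) (Fin n) R[X],
      ∀ z : ℂ, D.eval₂ R.subtype z ≠ 0 →
        (D.eval₂ R.subtype z) ^ p • Aseq A p z = (p : ℂ) • val Q z)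
    (hfac : ∀ p : ℕ, p.Prime → p ∉ S → p ∉ T → ∃ N : R, IsCoprime N (p : R) ∧
      ∀ m : ℕ, 1 ≤ m → ∃ Q : Matrix (Fin n) (Fin n) R[X],
        ∀ z : ℂ, D.eval₂ R.subtype z ≠ 0 →
          ((N : ℂ) * D.eval₂ R.subtype z) ^ m • Aseq A m z =
            ((p ^ padicValNat p m.factorial : ℕ) : ℂ) • val Q z)
    (U : Set ℂ) (hU : IsOpen U) (hUc : IsPreconnected U)
    (hUD : ∀ z ∈ U, D.eval₂ R.subtype z ≠ 0)
    (y : ℂ → Fin n → ℂ) (hy : ∀ i, DifferentiableOn ℂ (fun z => y z i) U)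
    (hsol : ∀ z ∈ U, ∀ i, deriv (fun x => y x i) z = ∑ j, A z i j * y z j) (i : Fin n) :
    ∃ P : ℂ[X][X], P ≠ 0 ∧ ∀ z ∈ U, (P.map (evalRingHom z)).eval (y z i) = 0 := by
  classical
  obtain ⟨C0, hC0⟩ := hD
  set E : ℤ[X] := (X * (X ^ e - 1)) ^ k with hE
  have hEv : ∀ z : ℂ, (toC E).eval z = (z * (z ^ e - 1)) ^ k := fun z => toC_pow e k z
  have hsplit : ∀ z : ℂ, (toC E).eval z = D.eval₂ R.subtype z * C0.eval₂ R.subtype z := by
    intro z
    rw [hEv, ← eval₂_mul, ← hC0, eval₂_pow, eval₂_mul, eval₂_sub, eval₂_pow, eval₂_X, eval₂_one]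
  -- the number field and the base point
  obtain ⟨K, _, _, a, ha⟩ := cycK e he
  have hx6 : ∀ σ : K →+* ℂ, (σ (a : K)) ^ (6 * e) = 1 := fun σ => (ha σ).pow_eq_one
  have hxe : ∀ σ : K →+* ℂ, ((σ (a : K)) ^ e) ^ 2 - (σ (a : K)) ^ e + 1 = 0 := fun σ =>
    prim6 ((ha σ).pow (by omega) (mul_comm 6 e))
  have hE0 : ∀ σ : K →+* ℂ, (toC E).eval (σ (a : K)) *
      σ (((a ^ ((4 * e - 1) * k) : NumberField.RingOfIntegers K) : K)) = 1 := by
    intro σ
    have h1 : σ (((a ^ ((4 * e - 1) * k) : NumberField.RingOfIntegers K) : K))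
        = ((σ (a : K)) ^ (4 * e - 1)) ^ k := by
      rw [← pow_mul]
      simp
    rw [h1, hEv, ← mul_pow]
    have h2 : (σ (a : K)) ^ e - 1 = ((σ (a : K)) ^ e) ^ 2 := by
      linear_combination -(hxe σ)
    have h3 : σ (a : K) * ((σ (a : K)) ^ e - 1) * (σ (a : K)) ^ (4 * e - 1) = 1 := by
      rw [h2, ← pow_mul]
      have h4 : σ (a : K) * (σ (a : K)) ^ (e * 2) * (σ (a : K)) ^ (4 * e - 1)
          = (σ (a : K)) ^ (1 + e * 2 + (4 * e - 1)) := by
        rw [pow_add, pow_add, pow_one]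
      rw [h4]
      have h5 : 1 + e * 2 + (4 * e - 1) = 6 * e := by omega
      rw [h5, hx6]
    rw [h3, one_pow]
  obtain ⟨M0, hM0, hmap⟩ := phiK_exists
  have hmapσ := fun σ : K →+* ℂ => hmap e he (σ (a : K)) (hxe σ)
  choose g hg hg0 hgne hg' using hmapσ
  have hgE : ∀ σ, ∀ x ∈ Metric.ball (0 : ℂ) 1, (toC E).eval (σ (a : K) + g σ x) ≠ 0 := by
    intro σ x hx
    rw [hEv]
    exact pow_ne_zero k (mul_ne_zero (hgne σ x hx).1 (sub_ne_zero.mpr (hgne σ x hx).2))
  have he0 : (0 : ℝ) < e := by exact_mod_cast he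
  set B' : Matrix (Fin n) (Fin n) R[X] := B.map (fun P => C0 * P) with hB'
  have hB'v : ∀ z, val B' z = C0.eval₂ R.subtype z • val B z := by
    intro z
    ext1 a b
    show (C0 * B a b).eval₂ R.subtype z = C0.eval₂ R.subtype z * (B a b).eval₂ R.subtype z
    rw [eval₂_mul]
  have hA' : ∀ z, (toC E).eval z ≠ 0 →
      (toC E).eval z • A z = (B'.map (Polynomial.map R.subtype)).map (eval z) := by
    intro z hz
    rw [hsplit] at hz ⊢
    have hDz : D.eval₂ R.subtype z ≠ 0 := fun h => hz (by rw [h, zero_mul])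
    rw [← val_eq, hB'v, ← hA z hDz, smul_smul, mul_comm]
  have main : AllAlg (toC E) (B'.map (Polynomial.map R.subtype)) := by
    refine mainK a _ R n E hE0 B' A hA' g hg hg0 hgE (Real.log (5.63 / e)) (M0 / e) ?_ hg' S T
      ?_ ?_ ?_
    · rw [Real.exp_log (by positivity)]
      exact div_lt_div_of_pos_right hM0 he0
    · intro F hF
      refine sum_le_log F hF _ _ ?_
      rw [le_div_iff₀ he0, mul_comm]
      exact hcost F hF
    · intro p hp hpS hpT
      refine ⟨?_, ?_⟩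
      · have : Fact p.Prime := ⟨hp⟩
        rw [hE]
        have h1 : ((X * (X ^ e - 1)) ^ k : ℤ[X]).map (Int.castRingHom (ZMod p)) =
            (X * (X ^ e - 1)) ^ k := by
          simp
        rw [h1]
        refine pow_ne_zero k (mul_ne_zero X_ne_zero ?_)
        have h2 := (monic_X_pow_sub_C (1 : ZMod p) (n := e) (by omega)).ne_zero
        rwa [C_1] at h2
      · obtain ⟨Q, hQ⟩ := hcurv p hp hpS hpT
        refine ⟨Q.map (fun P => C0 ^ p * P), fun z hz => ?_⟩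
        rw [hsplit] at hz
        have hDz : D.eval₂ R.subtype z ≠ 0 := fun h => hz (by rw [h, zero_mul])
        rw [hsplit, ← val_eq, val_mul, mul_pow, mul_comm, ← smul_smul, hQ z hDz, smul_smul,
          smul_smul, mul_comm]
    · intro p hp hpS hpT
      obtain ⟨N, hN, hfacp⟩ := hfac p hp hpS hpT
      refine ⟨N, hN, fun m hm => ?_⟩
      obtain ⟨Q, hQ⟩ := hfacp m hm
      refine ⟨Q.map (fun P => C0 ^ m * P), fun z hz => ?_⟩
      rw [hsplit] at hz
      have hDz : D.eval₂ R.subtype z ≠ 0 := fun h => hz (by rw [h, zero_mul])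
      rw [hsplit, ← val_eq, val_mul]
      have h2 : ((N : ℂ) * (D.eval₂ R.subtype z * C0.eval₂ R.subtype z)) ^ m =
          (C0.eval₂ R.subtype z) ^ m * ((N : ℂ) * D.eval₂ R.subtype z) ^ m := by
        ring
      rw [h2, ← smul_smul, hQ z hDz, smul_smul, smul_smul, mul_comm]
  refine main U hU hUc y ⟨hy, ?_⟩ i
  intro z hz a
  rw [hsol z hz a, hsplit, Finset.mul_sum]
  refine Finset.sum_congr rfl fun b _ => ?_
  have h1 := congrFun (congrFun (hA z (hUD z hz)) a) b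
  rw [Matrix.smul_apply, smul_eq_mul] at h1
  have h2 := congrFun (congrFun (val_eq B' z) a) b
  rw [hB'v, Matrix.smul_apply, smul_eq_mul] at h2
  have h3 : (((B'.map (Polynomial.map R.subtype)) a b).eval z) =
      C0.eval₂ R.subtype z * val B z a b := h2.symm
  rw [h3, ← h1]
  ring

end Pool.Agent.Results.MP_c83bfd_ag.RootsZeroInfinity
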